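import Pool.Agent.R959.GF6

set_option autoImplicit false

open MeasureTheory Set Filter
open scoped Topology

/-!
Site percolation on `Z^d`, `d ≥ 2`, below the critical point, with bounds which are uniform as
`p` increases to `p_c`: the probability that a box of radius `R N'` contains an open cluster with at
least `ε (2 N' + 1)^d` vertices is at most `K N' ^ (- c (p_c - p))`, at all scales `N'` up to a
bounded factor.
-/

namespace Pool.Agent.Results.MP_e13933_pr.GiantFreeBelow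

noncomputable section

/-- Vertices of `Z^d`. -/
abbrev V (d : ℕ) : Type := Fin d → ℤ

/-- The box of radius `N` around the origin; it has `(2 * N + 1) ^ d` vertices. -/
def box (d N : ℕ) : Set (V d) := {x | ∀ i, |x i| ≤ N}

/-- The open subgraph inside the region `S`: two vertices at Euclidean distance one are joined if
both are open (`ω x = true`) and in `S`. -/
def openGraph {d : ℕ} (ω : V d → Bool) (S : Set (V d)) : SimpleGraph (V d) where
  Adj x y := ∑ i, |x i - y i| = 1 ∧ (x ∈ S ∧ ω x = true) ∧ (y ∈ S ∧ ω y = true)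
  symm := ⟨fun x y ⟨h1, h2, h3⟩ => ⟨by simpa only [abs_sub_comm] using h1, h3, h2⟩⟩
  loopless := ⟨fun x h => by simpa using h.1⟩

/-- The open cluster of `x` inside the region `S` (empty if `x` is closed). -/
def cluster {d : ℕ} (ω : V d → Bool) (S : Set (V d)) (x : V d) : Set (V d) :=
  {y | (ω x = true ∧ x ∈ S) ∧ (openGraph ω S).Reachable x y}

/-- Site percolation with parameter `p`: all vertices are open with probability `p`,
independently. -/
def P (d : ℕ) (p : unitInterval) : Measure (V d → Bool) :=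
  Measure.infinitePi (fun _ : V d =>
    ENNReal.ofReal (p : ℝ) • Measure.dirac true + ENNReal.ofReal (1 - (p : ℝ)) • Measure.dirac false)

/-- The percolation probability `θ_d(p)`. -/
def theta (d : ℕ) (p : unitInterval) : ℝ := (P d p).real {ω | (cluster ω univ 0).Infinite}

/-- The critical point `p_c(d)`, the supremum of the parameters with `θ_d(p) = 0`. -/
def pc (d : ℕ) : unitInterval :=
  ⟨sSup {t : ℝ | ∃ q : unitInterval, (q : ℝ) = t ∧ theta d q = 0}, by
    constructor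
    · apply Real.sSup_nonneg
      rintro x ⟨q, rfl, _⟩
      exact q.2.1
    · apply Real.sSup_le
      · rintro x ⟨q, rfl, _⟩
        exact q.2.2
      · exact zero_le_one⟩

/-- The number of vertices of the largest open cluster of the box of radius `N`. -/
def largest (d N : ℕ) (ω : V d → Bool) : ℕ :=
  sSup ((fun x => (cluster ω (box d N) x).ncard) '' box d N)

lemma nd_mem {d : ℕ} {ω : V d → Bool} {x y : V d} :
    (∀ c ∈ (Pool.Agent.Y990.CB.siteM d).nd x y, ω c = true) ↔ ω x = true ∧ ω y = true := by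
  show (∀ c : V d, c ∈ ({x, y} : Finset (V d)) → ω c = true) ↔ _
  simp only [Finset.mem_insert, Finset.mem_singleton, forall_eq_or_imp, forall_eq]

open Pool.Agent.Y990.CB in
lemma adj_iff {d : ℕ} (ω : V d → Bool) (S : Set (V d)) (x y : V d) :
    (openGraph ω S).Adj x y ↔ (G (siteM d) ω S).Adj x y := by
  show (∑ i, |x i - y i| = 1 ∧ (x ∈ S ∧ ω x = true) ∧ (y ∈ S ∧ ω y = true)) ↔
    (∑ i, |x i - y i| = 1 ∧ x ∈ S ∧ y ∈ S ∧ ∀ c ∈ (siteM d).nd x y, ω c = true)
  rw [nd_mem]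
  tauto

open Pool.Agent.Y990.CB in
lemma graph_eq {d : ℕ} (ω : V d → Bool) (S : Set (V d)) :
    openGraph ω S = G (siteM d) ω S := by
  ext x y
  exact adj_iff ω S x y

open Pool.Agent.Y990.CB in
lemma cluster_sub {d : ℕ} (ω : V d → Bool) (S : Set (V d)) (x : V d) :
    cluster ω S x ⊆ cl (siteM d) ω S x := by
  rintro y ⟨-, h⟩
  rw [graph_eq] at h
  exact h

open Pool.Agent.Y990.CB in
lemma infinite_iff {d : ℕ} (ω : V d → Bool) (x : V d) :
    (cluster ω univ x).Infinite ↔ ω ∈ Perc (siteM d) x := by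
  constructor
  · intro h
    exact h.mono (cluster_sub ω univ x)
  · intro h
    have hx : ω x = true := by
      obtain ⟨y, hy, hyx⟩ := Set.Infinite.exists_notMem_finset h {x}
      have hyx' : y ≠ x := by simpa using hyx
      have hr : (G (siteM d) ω univ).Reachable x y := hy
      obtain ⟨q⟩ := hr
      cases q with
      | nil => exact absurd rfl hyx'
      | cons hadj _ => exact (nd_mem.1 hadj.2.2.2).1
    refine Set.Infinite.mono ?_ h
    intro y hy
    refine ⟨⟨hx, mem_univ x⟩, ?_⟩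
    rw [graph_eq]
    exact hy

open Pool.Agent.Y990.CB in
lemma P_eq (d : ℕ) (p : unitInterval) : P d p = mu (siteM d) p := rfl

open Pool.Agent.Y990.CB in
lemma theta_eq (d : ℕ) (p : unitInterval) : theta d p = th (siteM d) p := by
  unfold theta th
  rw [P_eq]
  congr 1
  ext ω
  exact infinite_iff ω 0

open Pool.Agent.Y990.CB in
lemma pc_eq (d : ℕ) : pc d = Pool.Agent.Y990.CB.pc (siteM d) := by
  apply Subtype.ext
  show sSup {t : ℝ | ∃ q : unitInterval, (q : ℝ) = t ∧ theta d q = 0} =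
    sSup {x : ℝ | ∃ q : unitInterval, (q : ℝ) = x ∧ th (siteM d) q = 0}
  simp only [theta_eq]

open Pool.Agent.Y990.CB in
lemma box_eq (d N : ℕ) : box d N = Bo (0 : V d) N := by
  ext x
  simp only [box, Bo, mem_ofPred_eq, Pi.zero_apply, sub_zero]

open Pool.Agent.Y990.CB in
lemma largest_attained (d N : ℕ) (ω : V d → Bool) :
    ∃ x ∈ box d N, (cluster ω (box d N) x).ncard = largest d N ω := by
  have hne : ((fun x => (cluster ω (box d N) x).ncard) '' box d N).Nonempty :=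
    ⟨_, 0, by rw [box_eq]; exact self_mem_Bo 0 N, rfl⟩
  have hb : BddAbove ((fun x => (cluster ω (box d N) x).ncard) '' box d N) := by
    refine ⟨(Bo (0 : V d) N).ncard, ?_⟩
    rintro n ⟨x, hx, rfl⟩
    rw [box_eq] at hx ⊢
    exact Set.ncard_le_ncard ((cluster_sub ω _ x).trans (cl_subset hx)) (Bo_finite 0 N)
  obtain ⟨x, hx, h⟩ := Nat.sSup_mem hne hb
  exact ⟨x, hx, h⟩

open Pool.Agent.Y990.CB in
/-- A giant cluster gives the event of the library. -/
lemma giant_sub (d N : ℕ) (a : ℝ) (ω : V d → Bool) (h : a ≤ (largest d N ω : ℝ)) :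
    ω ∈ Pool.Agent.Y990.SH.Gi (siteM d) N a := by
  obtain ⟨x, hx, hxe⟩ := largest_attained d N ω
  rw [box_eq] at hx hxe
  refine ⟨x, hx, h.trans ?_⟩
  rw [← hxe]
  have h5 := Set.ncard_le_ncard (cluster_sub ω (Bo 0 N) x) ((Bo_finite 0 N).subset (cl_subset hx))
  exact_mod_cast h5

open Pool.Agent.Y990.CB in
lemma pc_lt_one (d : ℕ) (hd : 2 ≤ d) : (pc d : ℝ) < 1 := by
  have hN : Nd (siteM d) := nd_site
  rcases lt_or_eq_of_le (pc d).2.2 with h | h
  · exact h
  exfalso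
  have h1 : Pool.Agent.Y990.CB.pc (siteM d) = 1 := by
    rw [← pc_eq]; exact Subtype.ext h
  obtain ⟨C, c, hc, hh⟩ := Pool.Agent.Y990.SH.nogiantR hd (siteM d) hN
    (Pool.Agent.Y990.SH.fu_site d) 1 one_pos 1 le_rfl
  obtain ⟨N, hN1, -, h2⟩ := hh 1 le_rfl
  rw [h1, one_mul] at h2
  -- at the parameter one all the sites of the box are connected
  have h3 : (mu (siteM d) 1).real (⋃ x ∈ Bf (0 : Z d) N, (Cn (siteM d) (Bo 0 N) 0 x)ᶜ) ≤ 0 := by
    refine (measureReal_biUnion_finset_le _ _).trans (Finset.sum_nonpos fun x hx => ?_)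
    rw [probReal_compl_eq_one_sub (Cn_meas (siteM d) _ _ _),
      Pool.Agent.Y333.CB.Cn_one (siteM d) N x (mem_Bf.1 hx), sub_self]
  have h4 : (Pool.Agent.Y990.SH.Gi (siteM d) N (1 * ((2 * N + 1 : ℕ) : ℝ) ^ d))ᶜ ⊆
      ⋃ x ∈ Bf (0 : Z d) N, (Cn (siteM d) (Bo 0 N) 0 x)ᶜ := by
    intro ω hω
    by_contra hcon
    simp only [mem_iUnion, not_exists, mem_compl_iff, not_not] at hcon
    apply hω
    refine ⟨0, self_mem_Bo 0 N, ?_⟩
    have h5 : cl (siteM d) ω (Bo 0 N) 0 = Bo 0 N := by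
      refine Subset.antisymm (cl_subset (self_mem_Bo 0 N)) fun x hx => ?_
      exact hcon x (mem_Bf.2 hx)
    rw [h5, Pool.Agent.R959.GF.ncard_Bo, one_mul]
    push_cast
    exact le_rfl
  have h5 := measureReal_mono (μ := mu (siteM d) 1) h4 (measure_ne_top _ _)
  linarith

/-- **No giant cluster below the critical point, uniformly.**  For every `d ≥ 2`, `ε > 0` and
`R ≥ 1` there are `C`, `K > 0` and `c > 0` such that for every `N ≥ 1` there is a scale `N'` with
`N ≤ N' ≤ C N` such that for every `p ≤ p_c`, with the same `N'`, the `P_p`-probability that the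
largest open cluster of the box of radius `R N'` has at least `ε (2 N' + 1)^d` vertices is at most
`K N' ^ (- c (p_c - p))`. -/
theorem result (d : ℕ) (hd : 2 ≤ d) (ε : ℝ) (hε : 0 < ε) (R : ℕ) (hR : 1 ≤ R) :
    ∃ (C : ℕ) (K c : ℝ), 0 < K ∧ 0 < c ∧ ∀ N : ℕ, 1 ≤ N → ∃ N' : ℕ, N ≤ N' ∧ N' ≤ C * N ∧
      ∀ p : unitInterval, p ≤ pc d →
        (P d p).real {ω | ε * (2 * N' + 1) ^ d ≤ (largest d (R * N') ω : ℝ)} ≤
          K * (N' : ℝ) ^ (-(c * ((pc d : ℝ) - p))) := by
  have hN : Pool.Agent.Y990.CB.Nd (Pool.Agent.Y990.CB.siteM d) := Pool.Agent.Y990.CB.nd_site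
  have hcast : ∀ N : ℕ, ((2 : ℝ) * N + 1) ^ d = ((2 * N + 1 : ℕ) : ℝ) ^ d := fun N => by
    push_cast
    rfl
  have hp1 : (pc d : ℝ) < 1 := pc_lt_one d hd
  have hp0 : 0 < (pc d : ℝ) := by
    rw [pc_eq]
    exact Pool.Agent.Y333.CB.pc_pos d _ hN
  obtain ⟨C2, hC2, hT⟩ := Pool.Agent.R959.GF.twoU (Pool.Agent.Y990.CB.siteM d) ((pc d : ℝ) / 2)
    (by linarith) (by linarith)
  obtain ⟨C, c0, hc0, h⟩ := Pool.Agent.Y990.SH.nogiantR hd (Pool.Agent.Y990.CB.siteM d) hN
    (Pool.Agent.Y990.SH.fu_site d) (ε / 2) (by positivity) (2 * R) (by omega)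
  obtain ⟨c1, hc1⟩ : ∃ c1 : ℝ, c1 = min c0 1 := ⟨_, rfl⟩
  have hc1p : 0 < c1 := by rw [hc1]; exact lt_min hc0 one_pos
  have hc1c : c1 ≤ c0 := by rw [hc1]; exact min_le_left _ _
  have hc11 : c1 ≤ 1 := by rw [hc1]; exact min_le_right _ _
  -- all large scales
  obtain ⟨K1, hK1⟩ : ∃ K1 : ℝ, K1 = 2 + 4 / ε + 2 * C2 ^ 2 / (1 - (pc d : ℝ)) := ⟨_, rfl⟩
  have hbig : ∀ᶠ N : ℕ in atTop, K1 * (Real.log N + 1) ≤ (N : ℝ) ^ ((1 : ℝ) / 8) := by
    have h1 := isLittleO_log_rpow_atTop (show (0 : ℝ) < 1 / 8 by norm_num)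
    have hK1p : 0 < K1 := by
      have : 0 < 1 - (pc d : ℝ) := by linarith
      rw [hK1]; positivity
    have h2 := h1.bound (show 0 < 1 / (2 * K1) by positivity)
    have h3 := tendsto_rpow_atTop (show (0 : ℝ) < 1 / 8 by norm_num)
    have h4 := h3.eventually_ge_atTop (2 * K1)
    have h5 := (h2.and h4).and (eventually_ge_atTop (1 : ℝ))
    refine (tendsto_natCast_atTop_atTop.eventually h5).mono ?_
    rintro N ⟨⟨a1, a2⟩, a3⟩
    rw [Real.norm_of_nonneg (Real.log_nonneg a3),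
      Real.norm_of_nonneg (Real.rpow_nonneg (by linarith) _)] at a1
    have a4 : K1 * Real.log N ≤ (N : ℝ) ^ ((1 : ℝ) / 8) / 2 := by
      calc K1 * Real.log N ≤ K1 * (1 / (2 * K1) * (N : ℝ) ^ ((1 : ℝ) / 8)) :=
            mul_le_mul_of_nonneg_left a1 hK1p.le
        _ = _ := by field_simp
    linarith
  obtain ⟨N0, hN0⟩ := eventually_atTop.1 hbig
  obtain ⟨N1, hN1d⟩ : ∃ N1 : ℕ, N1 = max N0 1 := ⟨_, rfl⟩
  have hN10 : N0 ≤ N1 := by rw [hN1d]; exact le_max_left _ _
  have hN11 : 1 ≤ N1 := by rw [hN1d]; exact le_max_right _ _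
  have hN1r : (1 : ℝ) ≤ N1 := by exact_mod_cast hN11
  obtain ⟨c, hc⟩ : ∃ c : ℝ, c = c1 ^ 2 / 128 := ⟨_, rfl⟩
  have hcp : 0 < c := by rw [hc]; positivity
  refine ⟨C, max (Real.exp 1) ((N1 : ℝ) ^ c), c, lt_max_of_lt_left (Real.exp_pos _), hcp,
    fun N hN1' => ?_⟩
  obtain ⟨N', h1, h2, h3⟩ := h N hN1'
  refine ⟨N', h1, h2, fun p hp => ?_⟩
  have hN'1 : 1 ≤ N' := hN1'.trans h1
  have hN'r : (1 : ℝ) ≤ N' := by exact_mod_cast hN'1
  have hN'0 : (0 : ℝ) < N' := by linarith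
  have hpp : (p : ℝ) ≤ pc d := hp
  have hδ0 : 0 ≤ (pc d : ℝ) - p := by linarith
  have hδ1 : (pc d : ℝ) - p ≤ 1 := by linarith [p.2.1]
  have hprob : IsProbabilityMeasure (P d p) :=
    inferInstanceAs (IsProbabilityMeasure (Pool.Agent.R959.GF.ms d p))
  rcases le_or_gt N1 N' with hle | hlt
  · -- large scales
    have hb := hN0 N' (hN10.trans hle)
    rw [hK1] at hb
    have hbase : (Pool.Agent.R959.GF.ms d (pc d)).real (Pool.Agent.R959.GF.Gc (2 * R * N')
        (ε / 2 * ((2 * N' + 1 : ℕ) : ℝ) ^ d)) ≤ 1 - c1 := by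
      have h4 := measureReal_compl (μ := Pool.Agent.R959.GF.ms d (pc d))
        (Pool.Agent.R959.GF.Gc_meas (d := d) (N := 2 * R * N')
          (a := ε / 2 * ((2 * N' + 1 : ℕ) : ℝ) ^ d))
      rw [probReal_univ] at h4
      rw [← pc_eq] at h3
      have h5 : c0 ≤ (Pool.Agent.R959.GF.ms d (pc d)).real (Pool.Agent.R959.GF.Gc (2 * R * N')
        (ε / 2 * ((2 * N' + 1 : ℕ) : ℝ) ^ d))ᶜ := h3
      linarith
    have hcore := Pool.Agent.R959.GF.core (d := d) (by omega) hε hc1p hc11 hC2 hp0 hp1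
      (fun q hq x r hr => hT q hq x 1 r hr) hR hN'1 hb hbase p hp
    have hsub : {ω | ε * (2 * N' + 1) ^ d ≤ (largest d (R * N') ω : ℝ)} ⊆
        Pool.Agent.R959.GF.Gc (R * N') (ε * ((2 * N' + 1 : ℕ) : ℝ) ^ d) := fun ω hω =>
      giant_sub d (R * N') _ ω (by rw [← hcast]; exact hω)
    have hms : (P d p).real {ω | ε * (2 * N' + 1) ^ d ≤ (largest d (R * N') ω : ℝ)} ≤
        (Pool.Agent.R959.GF.ms d p).real
          (Pool.Agent.R959.GF.Gc (R * N') (ε * ((2 * N' + 1 : ℕ) : ℝ) ^ d)) :=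
      measureReal_mono hsub (measure_ne_top _ _)
    refine (hms.trans hcore).trans ?_
    set J : ℕ := ⌊c1 / 64 * (((pc d : ℝ) - p) * Real.log N')⌋₊ with hJ
    have hJ1 : c1 / 64 * (((pc d : ℝ) - p) * Real.log N') - 1 ≤ J := by
      have := Nat.lt_floor_add_one (c1 / 64 * (((pc d : ℝ) - p) * Real.log N'))
      rw [← hJ] at this
      linarith
    have e1 : 1 - c1 / 2 ≤ Real.exp (-(c1 / 2)) := by
      have := Real.add_one_le_exp (-(c1 / 2))
      linarith
    calc (1 - c1 / 2) ^ J ≤ (Real.exp (-(c1 / 2))) ^ J :=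
          pow_le_pow_left₀ (by linarith) e1 J
      _ = Real.exp (-(c1 / 2) * J) := by rw [← Real.exp_nat_mul]; ring_nf
      _ ≤ Real.exp (1 + -(c * ((pc d : ℝ) - p)) * Real.log N') := by
          refine Real.exp_le_exp.2 ?_
          rw [hc]
          nlinarith
      _ = Real.exp 1 * (N' : ℝ) ^ (-(c * ((pc d : ℝ) - p))) := by
          rw [Real.exp_add, Real.rpow_def_of_pos hN'0]
          ring_nf
      _ ≤ _ := mul_le_mul_of_nonneg_right (le_max_left _ _) (Real.rpow_nonneg hN'0.le _)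
  · -- small scales
    have e1 : (P d p).real {ω | ε * (2 * N' + 1) ^ d ≤ (largest d (R * N') ω : ℝ)} ≤ 1 :=
      measureReal_le_one
    refine e1.trans ?_
    have e2 : (N' : ℝ) ^ (c * ((pc d : ℝ) - p)) ≤ (N1 : ℝ) ^ c := by
      calc (N' : ℝ) ^ (c * ((pc d : ℝ) - p)) ≤ (N' : ℝ) ^ c := by
            refine Real.rpow_le_rpow_of_exponent_le hN'r ?_
            nlinarith
        _ ≤ (N1 : ℝ) ^ c := by
            refine Real.rpow_le_rpow hN'0.le ?_ hcp.le
            exact_mod_cast hlt.le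
    have e3 : 0 < (N' : ℝ) ^ (c * ((pc d : ℝ) - p)) := Real.rpow_pos_of_pos hN'0 _
    rw [Real.rpow_neg hN'0.le, ← div_eq_mul_inv, one_le_div e3]
    exact e2.trans (le_max_right _ _)

end

end Pool.Agent.Results.MP_e13933_pr.GiantFreeBelow
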