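import Pool.Agent.R959.GM2
import Pool.Agent.Y990.SH.Main2
import Pool.Agent.Y990.CB.Fat
import Pool.Agent.Y448.CB2.Ctc

set_option autoImplicit false

open MeasureTheory Set Filter
open scoped Topology

/-!
Site percolation on `Z^d`, `d ≥ 2`, below the critical point, with bounds which are uniform as
`p` increases to `p_c` and hold at all scales: power-law bounds for the probability of a majority
cluster, and for the probability of a cluster which is dense, at a polynomial scale, in more than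
half of a box.
-/

namespace Pool.Agent.Results.MP_e13933_pr.MajorityBelow

noncomputable section

/-- Vertices of `Z^d`. -/
abbrev V (d : ℕ) : Type := Fin d → ℤ

/-- The box of radius `N` around the origin; it has `(2 * N + 1) ^ d` vertices. -/
def box (d N : ℕ) : Set (V d) := {x | ∀ i, |x i| ≤ N}

/-- The open subgraph inside the region `S`: two vertices at Euclidean distance one are joined if
both are open (`ω x = true`) and in `S`. -/
def openGraph {d : ℕ} (ω : V d → Bool) (S : Set (V d)) : SimpleGraph (V d) where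
  Adj x y := ∑ i, |x i - y i| = 1 ∧ (x ∈ S ∧ ω x = true) ∧ (y ∈ S ∧ ω y = true)
  symm := ⟨fun x y ⟨h1, h2, h3⟩ => ⟨by simpa only [abs_sub_comm] using h1, h3, h2⟩⟩
  loopless := ⟨fun x h => by simpa using h.1⟩

/-- The open cluster of `x` inside the region `S` (empty if `x` is closed). -/
def cluster {d : ℕ} (ω : V d → Bool) (S : Set (V d)) (x : V d) : Set (V d) :=
  {y | (ω x = true ∧ x ∈ S) ∧ (openGraph ω S).Reachable x y}

/-- Site percolation with parameter `p`: all vertices are open with probability `p`,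
independently. -/
def P (d : ℕ) (p : unitInterval) : Measure (V d → Bool) :=
  Measure.infinitePi (fun _ : V d =>
    ENNReal.ofReal (p : ℝ) • Measure.dirac true + ENNReal.ofReal (1 - (p : ℝ)) • Measure.dirac false)

/-- The percolation probability `θ_d(p)`. -/
def theta (d : ℕ) (p : unitInterval) : ℝ := (P d p).real {ω | (cluster ω univ 0).Infinite}

/-- The critical point `p_c(d)`, the supremum of the parameters with `θ_d(p) = 0`. -/
def pc (d : ℕ) : unitInterval :=
  ⟨sSup {t : ℝ | ∃ q : unitInterval, (q : ℝ) = t ∧ theta d q = 0}, by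
    constructor
    · apply Real.sSup_nonneg
      rintro x ⟨q, rfl, _⟩
      exact q.2.1
    · apply Real.sSup_le
      · rintro x ⟨q, rfl, _⟩
        exact q.2.2
      · exact zero_le_one⟩

/-- The vertices of the box of radius `N` at distance at most `k` (in the sup norm) from `C`. -/
def fattened (d N k : ℕ) (C : Set (V d)) : Set (V d) := {y | y ∈ box d N ∧ ∃ u ∈ C, u - y ∈ box d k}

lemma nd_mem {d : ℕ} {ω : V d → Bool} {x y : V d} :
    (∀ c ∈ (Pool.Agent.Y990.CB.siteM d).nd x y, ω c = true) ↔ ω x = true ∧ ω y = true := by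
  show (∀ c : V d, c ∈ ({x, y} : Finset (V d)) → ω c = true) ↔ _
  simp only [Finset.mem_insert, Finset.mem_singleton, forall_eq_or_imp, forall_eq]

open Pool.Agent.Y990.CB in
lemma adj_iff {d : ℕ} (ω : V d → Bool) (S : Set (V d)) (x y : V d) :
    (openGraph ω S).Adj x y ↔ (G (siteM d) ω S).Adj x y := by
  show (∑ i, |x i - y i| = 1 ∧ (x ∈ S ∧ ω x = true) ∧ (y ∈ S ∧ ω y = true)) ↔
    (∑ i, |x i - y i| = 1 ∧ x ∈ S ∧ y ∈ S ∧ ∀ c ∈ (siteM d).nd x y, ω c = true)
  rw [nd_mem]
  tauto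

open Pool.Agent.Y990.CB in
lemma graph_eq {d : ℕ} (ω : V d → Bool) (S : Set (V d)) :
    openGraph ω S = G (siteM d) ω S := by
  ext x y
  exact adj_iff ω S x y

open Pool.Agent.Y990.CB in
lemma cluster_sub {d : ℕ} (ω : V d → Bool) (S : Set (V d)) (x : V d) :
    cluster ω S x ⊆ cl (siteM d) ω S x := by
  rintro y ⟨-, h⟩
  rw [graph_eq] at h
  exact h

open Pool.Agent.Y990.CB in
lemma infinite_iff {d : ℕ} (ω : V d → Bool) (x : V d) :
    (cluster ω univ x).Infinite ↔ ω ∈ Perc (siteM d) x := by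
  constructor
  · intro h
    exact h.mono (cluster_sub ω univ x)
  · intro h
    have hx : ω x = true := by
      obtain ⟨y, hy, hyx⟩ := Set.Infinite.exists_notMem_finset h {x}
      have hyx' : y ≠ x := by simpa using hyx
      have hr : (G (siteM d) ω univ).Reachable x y := hy
      obtain ⟨q⟩ := hr
      cases q with
      | nil => exact absurd rfl hyx'
      | cons hadj _ => exact (nd_mem.1 hadj.2.2.2).1
    refine Set.Infinite.mono ?_ h
    intro y hy
    refine ⟨⟨hx, mem_univ x⟩, ?_⟩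
    rw [graph_eq]
    exact hy

open Pool.Agent.Y990.CB in
lemma P_eq (d : ℕ) (p : unitInterval) : P d p = mu (siteM d) p := rfl

open Pool.Agent.Y990.CB in
lemma theta_eq (d : ℕ) (p : unitInterval) : theta d p = th (siteM d) p := by
  unfold theta th
  rw [P_eq]
  congr 1
  ext ω
  exact infinite_iff ω 0

open Pool.Agent.Y990.CB in
lemma pc_eq (d : ℕ) : pc d = Pool.Agent.Y990.CB.pc (siteM d) := by
  apply Subtype.ext
  show sSup {t : ℝ | ∃ q : unitInterval, (q : ℝ) = t ∧ theta d q = 0} =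
    sSup {x : ℝ | ∃ q : unitInterval, (q : ℝ) = x ∧ th (siteM d) q = 0}
  simp only [theta_eq]

open Pool.Agent.Y990.CB in
lemma box_eq (d N : ℕ) : box d N = Bo (0 : V d) N := by
  ext x
  simp only [box, Bo, mem_ofPred_eq, Pi.zero_apply, sub_zero]

open Pool.Agent.Y990.CB in
lemma pc_lt_one (d : ℕ) (hd : 2 ≤ d) : (pc d : ℝ) < 1 := by
  have hN : Nd (siteM d) := nd_site
  rcases lt_or_eq_of_le (pc d).2.2 with h | h
  · exact h
  exfalso
  have h1 : Pool.Agent.Y990.CB.pc (siteM d) = 1 := by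
    rw [← pc_eq]; exact Subtype.ext h
  obtain ⟨C, c, hc, hh⟩ := Pool.Agent.Y990.SH.nogiantR hd (siteM d) hN
    (Pool.Agent.Y990.SH.fu_site d) 1 one_pos 1 le_rfl
  obtain ⟨N, hN1, -, h2⟩ := hh 1 le_rfl
  rw [h1, one_mul] at h2
  -- at the parameter one all the sites of the box are connected
  have h3 : (mu (siteM d) 1).real (⋃ x ∈ Bf (0 : Z d) N, (Cn (siteM d) (Bo 0 N) 0 x)ᶜ) ≤ 0 := by
    refine (measureReal_biUnion_finset_le _ _).trans (Finset.sum_nonpos fun x hx => ?_)
    rw [probReal_compl_eq_one_sub (Cn_meas (siteM d) _ _ _),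
      Pool.Agent.Y333.CB.Cn_one (siteM d) N x (mem_Bf.1 hx), sub_self]
  have h4 : (Pool.Agent.Y990.SH.Gi (siteM d) N (1 * ((2 * N + 1 : ℕ) : ℝ) ^ d))ᶜ ⊆
      ⋃ x ∈ Bf (0 : Z d) N, (Cn (siteM d) (Bo 0 N) 0 x)ᶜ := by
    intro ω hω
    by_contra hcon
    simp only [mem_iUnion, not_exists, mem_compl_iff, not_not] at hcon
    apply hω
    refine ⟨0, self_mem_Bo 0 N, ?_⟩
    have h5 : cl (siteM d) ω (Bo 0 N) 0 = Bo 0 N := by
      refine Subset.antisymm (cl_subset (self_mem_Bo 0 N)) fun x hx => ?_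
      exact hcon x (mem_Bf.2 hx)
    rw [h5, Pool.Agent.R959.GF.ncard_Bo, one_mul]
    push_cast
    exact le_rfl
  have h5 := measureReal_mono (μ := mu (siteM d) 1) h4 (measure_ne_top _ _)
  linarith

open Pool.Agent.Y990.CB in
lemma mem_sub {d k : ℕ} {u y : V d} : u - y ∈ box d k ↔ u ∈ Bo y k := by
  simp only [box, Bo, mem_ofPred_eq, Pi.sub_apply]

open Pool.Agent.Y990.CB Pool.Agent.R959.GF Pool.Agent.R959.GM in
/-- A cluster with large fattened volume gives the event of the library. -/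
lemma fat_ev {d N k L : ℕ} {a : ℝ} (ha : 0 < a) {ω : V d → Bool} {x : V d} {A : Set (V d)}
    (hA : A ⊆ fattened d N k (cluster ω (box d L) x)) (h : a ≤ (A.ncard : ℝ)) :
    ω ∈ Ev (fat N k) L a := by
  have hfin : (nbh N k (cs ω (Bo 0 L) x)).Finite := nbh_fin _ _ _
  have hsub : A ⊆ nbh N k (cs ω (Bo 0 L) x) := by
    intro y hy
    obtain ⟨h1, u, hu, h2⟩ := hA hy
    rw [box_eq] at h1 hu
    exact ⟨h1, u, cluster_sub ω _ x hu, mem_sub.1 h2⟩
  have h1 := Set.ncard_le_ncard hsub hfin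
  have hx : x ∈ Bo (0 : Z d) L := by
    have hne : A.Nonempty := by
      rw [Set.nonempty_iff_ne_empty]
      rintro rfl
      rw [Set.ncard_empty] at h
      push_cast at h
      linarith
    obtain ⟨y, hy⟩ := hne
    obtain ⟨-, u, hu, -⟩ := hA hy
    have := hu.1.2
    rwa [box_eq] at this
  have h2 := le_fat (N := N) (k := k) (ω := ω) hx
  have h3 : (A.ncard : ℝ) ≤ (fat N k L ω : ℝ) := by exact_mod_cast h1.trans h2
  exact h.trans h3

open Pool.Agent.Y990.CB Pool.Agent.R959.GF Pool.Agent.R959.GM in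
/-- The event of the library in terms of clusters meeting the neighbourhood of the box. -/
lemma ev_fat {d N k L : ℕ} {a : ℝ} (ha : 0 < a) {ω : V d → Bool} (h : ω ∈ Ev (fat N k) L a) :
    ∃ x ∈ Bo (0 : V d) (N + k), a ≤ ((nbh N k (cs ω (Bo 0 L) x)).ncard : ℝ) := by
  obtain ⟨y, hy, he⟩ := fat_att N k L ω
  have h1 : a ≤ (fat N k L ω : ℝ) := h
  rw [he] at h1
  have hne : (nbh N k (cs ω (Bo 0 L) y)).Nonempty := by
    rw [Set.nonempty_iff_ne_empty]
    intro h0
    rw [h0, Set.ncard_empty] at h1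
    push_cast at h1
    linarith
  obtain ⟨u, hu, v, hv, hvu⟩ := hne
  refine ⟨v, ?_, ?_⟩
  · intro i
    have e1 := abs_le.1 (hu i)
    have e2 := abs_le.1 (hvu i)
    rw [abs_le]
    push_cast
    constructor <;> linarith [e1.1, e1.2, e2.1, e2.2]
  · rw [cs_eq hv]
    exact h1

/-- **No majority cluster below the critical point, uniformly and at all scales.**  For every
`d ≥ 2` there is a constant `C ≥ 1` such that for all `R ≥ 1` and `0 < ε ≤ 1` there is a `K > 0`
such that for all `N ≥ 1` and all `p ≤ p_c`: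

* the `P_p`-probability that an open cluster of the box of radius `R N` has at least
  `(θ(p_c) / 2 + ε) (2 N + 1)^d` vertices in the box of radius `N` is at most
  `K N ^ (- (ε / (10^16 R))^2 (p_c - p))`;
* for all `k` with `C (k + 1)^(2 d^2 + 3 d) R ≤ ε^2 √N` the `P_p`-probability that an open cluster
  of the box of radius `R N` comes within distance `k` of at least `(1 / 2 + ε) (2 N + 1)^d`
  vertices of the box of radius `N` is at most `K N ^ (- (ε / (10^16 R))^2 (p_c - p))`. -/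
theorem result (d : ℕ) (hd : 2 ≤ d) : ∃ C : ℝ, 1 ≤ C ∧ ∀ (R : ℕ) (ε : ℝ), 1 ≤ R → 0 < ε → ε ≤ 1 →
    ∃ K : ℝ, 0 < K ∧ ∀ N : ℕ, 1 ≤ N → ∀ p : unitInterval, p ≤ pc d →
      (P d p).real {ω | ∃ x : V d, (theta d (pc d) / 2 + ε) * (2 * N + 1) ^ d ≤
          ((cluster ω (box d (R * N)) x ∩ box d N).ncard : ℝ)} ≤
        K * (N : ℝ) ^ (-((ε / (10 ^ 16 * R)) ^ 2 * ((pc d : ℝ) - p))) ∧
      ∀ k : ℕ, C * ((k : ℝ) + 1) ^ (2 * d ^ 2 + 3 * d) * R ≤ ε ^ 2 * √(N : ℝ) →
        (P d p).real {ω | ∃ x : V d, (1 / 2 + ε) * (2 * N + 1) ^ d ≤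
            ((fattened d N k (cluster ω (box d (R * N)) x)).ncard : ℝ)} ≤
          K * (N : ℝ) ^ (-((ε / (10 ^ 16 * R)) ^ 2 * ((pc d : ℝ) - p))) := by
  have hN : Pool.Agent.Y990.CB.Nd (Pool.Agent.Y990.CB.siteM d) := Pool.Agent.Y990.CB.nd_site
  have hQ : Pool.Agent.Y990.CB.Qm (Pool.Agent.Y990.CB.siteM d) := Pool.Agent.Y448.CB2.qm_site d
  have hcast : ∀ N : ℕ, ((2 : ℝ) * N + 1) ^ d = ((2 * N + 1 : ℕ) : ℝ) ^ d := fun N => by
    push_cast
    rfl
  have hp1 : (pc d : ℝ) < 1 := pc_lt_one d hd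
  have hp0 : 0 < (pc d : ℝ) := by
    rw [pc_eq]
    exact Pool.Agent.Y333.CB.pc_pos d _ hN
  obtain ⟨C2, hC2, hT⟩ := Pool.Agent.R959.GF.twoU (Pool.Agent.Y990.CB.siteM d) ((pc d : ℝ) / 2)
    (by linarith) (by linarith)
  obtain ⟨C, hC, hfat⟩ := Pool.Agent.Y990.CB.fat hd (Pool.Agent.Y990.CB.siteM d) hN hQ
  refine ⟨18 * C, by linarith, fun R ε hR hε hε1 => ?_⟩
  have hRr : (1 : ℝ) ≤ R := by exact_mod_cast hR
  have hθ0 : 0 ≤ theta d (pc d) := by unfold theta; exact measureReal_nonneg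
  obtain ⟨Nm, hmg⟩ := Pool.Agent.Y990.CB.mg hd (Pool.Agent.Y990.CB.siteM d) hN (2 * R) (by omega)
    (ε / 3) (by positivity) (by linarith)
  obtain ⟨c1, hc1⟩ : ∃ c1 : ℝ, c1 = ε / 3 / (10 ^ 14 * (2 * R : ℕ)) := ⟨_, rfl⟩
  have hc1p : 0 < c1 := by rw [hc1]; positivity
  have hc11 : c1 ≤ 1 := by
    rw [hc1, div_le_one (by positivity)]
    push_cast
    nlinarith
  -- all large scales
  obtain ⟨K1, hK1⟩ : ∃ K1 : ℝ, K1 = 2 + 3 / (ε / 2) + 2 * C2 ^ 2 / (1 - (pc d : ℝ)) := ⟨_, rfl⟩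
  have hbig : ∀ᶠ N : ℕ in atTop, K1 * (Real.log N + 1) ≤ (N : ℝ) ^ ((1 : ℝ) / 8) := by
    have h1 := isLittleO_log_rpow_atTop (show (0 : ℝ) < 1 / 8 by norm_num)
    have hK1p : 0 < K1 := by
      have : 0 < 1 - (pc d : ℝ) := by linarith
      rw [hK1]; positivity
    have h2 := h1.bound (show 0 < 1 / (2 * K1) by positivity)
    have h3 := tendsto_rpow_atTop (show (0 : ℝ) < 1 / 8 by norm_num)
    have h4 := h3.eventually_ge_atTop (2 * K1)
    have h5 := (h2.and h4).and (eventually_ge_atTop (1 : ℝ))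
    refine (tendsto_natCast_atTop_atTop.eventually h5).mono ?_
    rintro N ⟨⟨a1, a2⟩, a3⟩
    rw [Real.norm_of_nonneg (Real.log_nonneg a3),
      Real.norm_of_nonneg (Real.rpow_nonneg (by linarith) _)] at a1
    have a4 : K1 * Real.log N ≤ (N : ℝ) ^ ((1 : ℝ) / 8) / 2 := by
      calc K1 * Real.log N ≤ K1 * (1 / (2 * K1) * (N : ℝ) ^ ((1 : ℝ) / 8)) :=
            mul_le_mul_of_nonneg_left a1 hK1p.le
        _ = _ := by field_simp
    linarith
  obtain ⟨N0, hN0⟩ := eventually_atTop.1 hbig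
  obtain ⟨N1, hN1d⟩ : ∃ N1 : ℕ, N1 = N0 + Nm + 4 := ⟨_, rfl⟩
  have hN1r : (1 : ℝ) ≤ N1 := by
    have : 1 ≤ N1 := by omega
    exact_mod_cast this
  obtain ⟨e, he⟩ : ∃ e : ℝ, e = (ε / (10 ^ 16 * R)) ^ 2 := ⟨_, rfl⟩
  have he0 : 0 < e := by rw [he]; positivity
  have hec : e ≤ c1 ^ 2 / 128 := by
    have h1 : c1 ^ 2 / 128 = ε ^ 2 / (4608 * 10 ^ 28 * R ^ 2) := by
      rw [hc1]
      push_cast
      field_simp
      norm_num
    have h2 : e = ε ^ 2 / (10 ^ 32 * R ^ 2) := by
      rw [he, div_pow, mul_pow, ← pow_mul]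
    rw [h1, h2]
    refine div_le_div_of_nonneg_left (by positivity) (by positivity) ?_
    nlinarith [sq_nonneg (R : ℝ)]
  rw [← he]
  refine ⟨max (Real.exp 1) ((N1 : ℝ) ^ e), lt_max_of_lt_left (Real.exp_pos _),
    fun N hNN p hp => ?_⟩
  have hNr : (1 : ℝ) ≤ N := by exact_mod_cast hNN
  have hNp : (0 : ℝ) < N := by linarith
  have hpp : (p : ℝ) ≤ pc d := hp
  have hδ0 : 0 ≤ (pc d : ℝ) - p := by linarith
  have hδ1 : (pc d : ℝ) - p ≤ 1 := by linarith [p.2.1]
  have hprob : IsProbabilityMeasure (P d p) :=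
    inferInstanceAs (IsProbabilityMeasure (Pool.Agent.R959.GF.ms d p))
  have hVp : (0 : ℝ) < ((2 * N + 1 : ℕ) : ℝ) ^ d := by positivity
  have hT2 : ∀ q : unitInterval, (pc d : ℝ) / 2 ≤ q → ∀ (x : V d) (r : ℕ), 1 ≤ r →
      (Pool.Agent.R959.GF.ms d q).real (Pool.Agent.R959.GF.Ts x r) ≤ C2 ^ 2 / √(r : ℝ) :=
    fun q hq x r hr => hT q hq x 1 r hr
  -- small scales
  have small : ∀ E : Set (V d → Bool), N < N1 →
      (P d p).real E ≤ max (Real.exp 1) ((N1 : ℝ) ^ e) * (N : ℝ) ^ (-(e * ((pc d : ℝ) - p))) := by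
    intro E hlt
    have e1 : (P d p).real E ≤ 1 := measureReal_le_one
    refine e1.trans ?_
    have e2 : (N : ℝ) ^ (e * ((pc d : ℝ) - p)) ≤ (N1 : ℝ) ^ e := by
      calc (N : ℝ) ^ (e * ((pc d : ℝ) - p)) ≤ (N : ℝ) ^ e := by
            refine Real.rpow_le_rpow_of_exponent_le hNr ?_
            nlinarith
        _ ≤ (N1 : ℝ) ^ e := by
            refine Real.rpow_le_rpow hNp.le ?_ he0.le
            exact_mod_cast hlt.le
    have e3 : 0 < (N : ℝ) ^ (e * ((pc d : ℝ) - p)) := Real.rpow_pos_of_pos hNp _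
    rw [Real.rpow_neg hNp.le, ← div_eq_mul_inv, one_le_div e3]
    exact e2.trans (le_max_right _ _)
  -- large scales
  have large : ∀ (k : ℕ) (a : ℝ) (E : Set (V d → Bool)), N1 ≤ N → k ≤ Nat.sqrt N →
      (Pool.Agent.R959.GF.ms d (pc d)).real (Pool.Agent.R959.GM.Ev (Pool.Agent.R959.GM.fat N k)
        (2 * R * N) (a * ((2 * N + 1 : ℕ) : ℝ) ^ d)) ≤ 1 - c1 →
      E ⊆ Pool.Agent.R959.GM.Ev (Pool.Agent.R959.GM.fat N k) (R * N)
        (a * ((2 * N + 1 : ℕ) : ℝ) ^ d + ε / 2 * ((2 * N + 1 : ℕ) : ℝ) ^ d) →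
      (P d p).real E ≤ max (Real.exp 1) ((N1 : ℝ) ^ e) * (N : ℝ) ^ (-(e * ((pc d : ℝ) - p))) := by
    intro k a E hle hk hbase hsub
    have hb := hN0 N (by omega)
    rw [hK1] at hb
    have hcore := Pool.Agent.R959.GM.core (d := d) (by omega) (show 0 < ε / 2 by positivity)
      hc1p hc11 hC2 hp0 hp1 hT2 hR (show 4 ≤ N by omega) hk hb
      (Pool.Agent.R959.GM.fat N k) (Pool.Agent.R959.GM.fat_mo N k)
      (Pool.Agent.R959.GM.fat_de N k) (Pool.Agent.R959.GM.fat_di N k (by
        rw [Nat.le_sqrt]; omega)) (a * ((2 * N + 1 : ℕ) : ℝ) ^ d) hbase p hp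
    have hms : (P d p).real E ≤ _ := le_trans
      (measureReal_mono (μ := P d p) hsub (measure_ne_top _ _)) hcore
    refine (hms.trans (Pool.Agent.R959.GM.pow_le hc1p hc11 hδ0 hNN)).trans ?_
    refine mul_le_mul (le_max_left _ _) ?_ (Real.rpow_nonneg hNp.le _)
      ((Real.exp_pos _).le.trans (le_max_left _ _))
    refine Real.rpow_le_rpow_of_exponent_le hNr ?_
    have := mul_le_mul_of_nonneg_right hec hδ0
    linarith
  constructor
  · -- majority clusters
    rcases le_or_gt N1 N with hle | hlt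
    · refine large 0 (theta d (pc d) / 2 + ε / 2) _ hle (Nat.zero_le _) ?_ ?_
      · have h1 := hmg N (by omega)
        rw [← pc_eq, ← theta_eq] at h1
        have h2 : (Pool.Agent.R959.GF.ms d (pc d)).real (Pool.Agent.R959.GM.Ev
            (Pool.Agent.R959.GM.fat N 0) (2 * R * N)
            ((theta d (pc d) / 2 + ε / 2) * ((2 * N + 1 : ℕ) : ℝ) ^ d)) ≤
            (Pool.Agent.R959.GF.ms d (pc d)).real (Pool.Agent.Y990.CB.Nh
              (Pool.Agent.Y990.CB.siteM d) (2 * R * N) N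
              ((theta d (pc d) / 2 + ε / 3) * ((2 * N + 1 : ℕ) : ℝ) ^ d) 0)ᶜ := by
          refine measureReal_mono ?_ (measure_ne_top _ _)
          intro ω hω hcon
          obtain ⟨x, hx, hx2⟩ := ev_fat (mul_pos (by linarith) hVp) hω
          rw [add_zero] at hx
          have h3 := hcon x hx
          have h4 : Pool.Agent.R959.GM.nbh N 0 (Pool.Agent.R959.GF.cs ω
              (Pool.Agent.Y990.CB.Bo 0 (2 * R * N)) x) ⊆
              Pool.Agent.Y990.CB.cl (Pool.Agent.Y990.CB.siteM d) ω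
                (Pool.Agent.Y990.CB.Bo 0 (2 * R * N)) x ∩ Pool.Agent.Y990.CB.Bo 0 N := by
            rintro u ⟨hu, v, hv, hvu⟩
            have e1 : v = u := by
              funext i
              have := hvu i
              rw [Nat.cast_zero, abs_nonpos_iff] at this
              linarith
            rw [e1] at hv
            exact ⟨hv, hu⟩
          have h5 := Set.ncard_le_ncard h4 ((Pool.Agent.Y990.CB.Bo_finite 0 N).subset
            inter_subset_right)
          have h6 : ((Pool.Agent.R959.GM.nbh N 0 (Pool.Agent.R959.GF.cs ω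
              (Pool.Agent.Y990.CB.Bo 0 (2 * R * N)) x)).ncard : ℝ) ≤
              ((Pool.Agent.Y990.CB.cl (Pool.Agent.Y990.CB.siteM d) ω
                (Pool.Agent.Y990.CB.Bo 0 (2 * R * N)) x ∩
                Pool.Agent.Y990.CB.Bo 0 N).ncard : ℝ) := by exact_mod_cast h5
          nlinarith
        have h7 := measureReal_compl (μ := Pool.Agent.R959.GF.ms d (pc d))
          (Pool.Agent.Y990.CB.Nh_meas (Pool.Agent.Y990.CB.siteM d) (2 * R * N) N
              ((theta d (pc d) / 2 + ε / 3) * ((2 * N + 1 : ℕ) : ℝ) ^ d) 0)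
        rw [probReal_univ] at h7
        have h8 : c1 ≤ (Pool.Agent.R959.GF.ms d (pc d)).real (Pool.Agent.Y990.CB.Nh
              (Pool.Agent.Y990.CB.siteM d) (2 * R * N) N
              ((theta d (pc d) / 2 + ε / 3) * ((2 * N + 1 : ℕ) : ℝ) ^ d) 0) := by
          rw [hc1]
          exact h1
        linarith
      · rintro ω ⟨x, hx⟩
        rw [hcast] at hx
        refine fat_ev (by positivity) (x := x) (A := cluster ω (box d (R * N)) x ∩ box d N) ?_ ?_
        · rintro u ⟨h1, h2⟩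
          refine ⟨h2, u, h1, ?_⟩
          rw [sub_self]
          intro i
          simp
        · rw [← add_mul]
          refine le_trans (le_of_eq ?_) hx
          ring
    · exact small _ hlt
  · -- dense clusters
    intro k hk
    rcases le_or_gt N1 N with hle | hlt
    · have hsq1 : (0 : ℝ) ≤ √(N : ℝ) := Real.sqrt_nonneg _
      have hk1 : (1 : ℝ) ≤ (k : ℝ) + 1 := by
        have : (0 : ℝ) ≤ k := Nat.cast_nonneg _
        linarith
      have hpow : (k : ℝ) + 1 ≤ ((k : ℝ) + 1) ^ (2 * d ^ 2 + 3 * d) :=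
        le_self_pow₀ hk1 (by omega)
      have hksq : k ≤ Nat.sqrt N := by
        rw [Nat.le_sqrt']
        have h1 : (k : ℝ) ≤ √(N : ℝ) := by
          have h2 : ((k : ℝ) + 1) * 1 ≤ 18 * C * ((k : ℝ) + 1) ^ (2 * d ^ 2 + 3 * d) * R := by
            refine mul_le_mul ?_ hRr zero_le_one (by positivity)
            nlinarith
          have h3 : ε ^ 2 * √(N : ℝ) ≤ 1 * √(N : ℝ) :=
            mul_le_mul_of_nonneg_right (by nlinarith) hsq1
          linarith
        have h2 : (k : ℝ) ^ 2 ≤ N := by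
          calc (k : ℝ) ^ 2 ≤ √(N : ℝ) ^ 2 := pow_le_pow_left₀ (Nat.cast_nonneg _) h1 2
            _ = N := Real.sq_sqrt hNp.le
        exact_mod_cast h2
      refine large k (1 / 2 + ε / 2) _ hle hksq ?_ ?_
      · have h1 := hfat k N (2 * R) (ε / 3) (by omega) (by positivity) (by linarith) (by
          push_cast
          have : (ε / 3) ^ 2 * √(N : ℝ) = ε ^ 2 * √(N : ℝ) / 9 := by ring
          rw [this, le_div_iff₀ (by norm_num)]
          refine le_trans (le_of_eq ?_) hk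
          ring)
        rw [← pc_eq] at h1
        have h2 : (Pool.Agent.R959.GF.ms d (pc d)).real (Pool.Agent.R959.GM.Ev
            (Pool.Agent.R959.GM.fat N k) (2 * R * N)
            ((1 / 2 + ε / 2) * ((2 * N + 1 : ℕ) : ℝ) ^ d)) ≤
            (Pool.Agent.R959.GF.ms d (pc d)).real (Pool.Agent.Y990.CB.Nf'
              (Pool.Agent.Y990.CB.siteM d) (2 * R * N) N k
              ((1 / 2 + ε / 3) * ((2 * N + 1 : ℕ) : ℝ) ^ d) 0)ᶜ := by
          refine measureReal_mono ?_ (measure_ne_top _ _)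
          intro ω hω hcon
          obtain ⟨x, hx, hx2⟩ := ev_fat (mul_pos (by linarith) hVp) hω
          have h3 := hcon x hx
          have h4 : Pool.Agent.R959.GM.nbh N k (Pool.Agent.R959.GF.cs ω
              (Pool.Agent.Y990.CB.Bo 0 (2 * R * N)) x) ⊆
              Pool.Agent.Y990.CB.Fs (Pool.Agent.Y990.CB.siteM d) ω (2 * R * N) N k 0 x := by
            rintro u ⟨hu, v, hv, hvu⟩
            exact ⟨hu, v, hvu, hv⟩
          have h5 := Set.ncard_le_ncard h4 (Pool.Agent.Y990.CB.Fs_fin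
            (Pool.Agent.Y990.CB.siteM d) ω (2 * R * N) N k 0 x)
          have h6 : ((Pool.Agent.R959.GM.nbh N k (Pool.Agent.R959.GF.cs ω
              (Pool.Agent.Y990.CB.Bo 0 (2 * R * N)) x)).ncard : ℝ) ≤
              ((Pool.Agent.Y990.CB.Fs (Pool.Agent.Y990.CB.siteM d) ω (2 * R * N) N k 0
                x).ncard : ℝ) := by exact_mod_cast h5
          nlinarith
        have h7 := measureReal_compl (μ := Pool.Agent.R959.GF.ms d (pc d))
          (Pool.Agent.Y990.CB.Nf'_meas (Pool.Agent.Y990.CB.siteM d) (2 * R * N) N k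
              ((1 / 2 + ε / 3) * ((2 * N + 1 : ℕ) : ℝ) ^ d) 0)
        rw [probReal_univ] at h7
        have h8 : c1 ≤ (Pool.Agent.R959.GF.ms d (pc d)).real (Pool.Agent.Y990.CB.Nf'
              (Pool.Agent.Y990.CB.siteM d) (2 * R * N) N k
              ((1 / 2 + ε / 3) * ((2 * N + 1 : ℕ) : ℝ) ^ d) 0) := by
          rw [hc1]
          exact h1
        linarith
      · rintro ω ⟨x, hx⟩
        rw [hcast] at hx
        refine fat_ev (by positivity) (x := x)
          (A := fattened d N k (cluster ω (box d (R * N)) x)) subset_rfl ?_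
        rw [← add_mul]
        refine le_trans (le_of_eq ?_) hx
        ring
    · exact small _ hlt

end

end Pool.Agent.Results.MP_e13933_pr.MajorityBelow
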