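import Pool.Agent.Y990.CB.Fat
import Pool.Agent.W400.PC.PT

set_option autoImplicit false

open MeasureTheory Set Filter
open scoped Topology

/-!
Site percolation on `Z^d`, `d ≥ 2`, at and below the critical point: boxes of polynomial size are
mutually disconnected with probability bounded away from zero, and no cluster comes close to more
than about one half of the vertices of a box.

The main estimates are in the modules `Pool.Agent.Y990.CB.Poly` and `Pool.Agent.Y990.CB.Fat`.
-/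

namespace Pool.Agent.Results.MP_e13933_pr.PolynomialDisconnection

noncomputable section

/-- Vertices of `Z^d`. -/
abbrev V (d : ℕ) : Type := Fin d → ℤ

/-- The box of radius `N` around `z`; it has `(2 * N + 1) ^ d` vertices. -/
def box {d : ℕ} (z : V d) (N : ℕ) : Set (V d) := {x | ∀ i, |x i - z i| ≤ N}

/-- The open subgraph inside the region `S`: two vertices at Euclidean distance one are joined if
both are open (`ω x = true`) and in `S`. -/
def openGraph {d : ℕ} (ω : V d → Bool) (S : Set (V d)) : SimpleGraph (V d) where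
  Adj x y := ∑ i, |x i - y i| = 1 ∧ (x ∈ S ∧ ω x = true) ∧ (y ∈ S ∧ ω y = true)
  symm := ⟨fun x y ⟨h1, h2, h3⟩ => ⟨by simpa only [abs_sub_comm] using h1, h3, h2⟩⟩
  loopless := ⟨fun x h => by simpa using h.1⟩

/-- The open cluster of `x` inside the region `S` (empty if `x` is closed). -/
def cluster {d : ℕ} (ω : V d → Bool) (S : Set (V d)) (x : V d) : Set (V d) :=
  {y | (ω x = true ∧ x ∈ S) ∧ (openGraph ω S).Reachable x y}

/-- The sets `A` and `B` are connected inside the region `S`: some open cluster inside `S` meets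
both of them. -/
def Joined {d : ℕ} (ω : V d → Bool) (S A B : Set (V d)) : Prop :=
  ∃ x ∈ A, (cluster ω S x ∩ B).Nonempty

/-- Site percolation with parameter `p`: all vertices are open with probability `p`,
independently. -/
def P (d : ℕ) (p : unitInterval) : Measure (V d → Bool) :=
  Measure.infinitePi (fun _ : V d =>
    ENNReal.ofReal (p : ℝ) • Measure.dirac true + ENNReal.ofReal (1 - (p : ℝ)) • Measure.dirac false)

/-- The percolation probability `θ_d(p)`. -/
def theta (d : ℕ) (p : unitInterval) : ℝ := (P d p).real {ω | (cluster ω univ 0).Infinite}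

/-- The critical point `p_c(d)`, the supremum of the parameters with `θ_d(p) = 0`. -/
def pc (d : ℕ) : unitInterval :=
  ⟨sSup {t : ℝ | ∃ q : unitInterval, (q : ℝ) = t ∧ theta d q = 0}, by
    constructor
    · apply Real.sSup_nonneg
      rintro x ⟨q, rfl, _⟩
      exact q.2.1
    · apply Real.sSup_le
      · rintro x ⟨q, rfl, _⟩
        exact q.2.2
      · exact zero_le_one⟩

/-! ### Comparison with the model of the modules -/

lemma nd_mem {d : ℕ} {ω : V d → Bool} {x y : V d} :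
    (∀ c ∈ (Pool.Agent.Y990.CB.siteM d).nd x y, ω c = true) ↔ ω x = true ∧ ω y = true := by
  show (∀ c : V d, c ∈ ({x, y} : Finset (V d)) → ω c = true) ↔ _
  simp only [Finset.mem_insert, Finset.mem_singleton, forall_eq_or_imp, forall_eq]

open Pool.Agent.Y990.CB in
lemma adj_iff {d : ℕ} (ω : V d → Bool) (S : Set (V d)) (x y : V d) :
    (openGraph ω S).Adj x y ↔ (G (siteM d) ω S).Adj x y := by
  show (∑ i, |x i - y i| = 1 ∧ (x ∈ S ∧ ω x = true) ∧ (y ∈ S ∧ ω y = true)) ↔
    (∑ i, |x i - y i| = 1 ∧ x ∈ S ∧ y ∈ S ∧ ∀ c ∈ (siteM d).nd x y, ω c = true)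
  rw [nd_mem]
  tauto

open Pool.Agent.Y990.CB in
lemma graph_eq {d : ℕ} (ω : V d → Bool) (S : Set (V d)) :
    openGraph ω S = G (siteM d) ω S := by
  ext x y
  exact adj_iff ω S x y

open Pool.Agent.Y990.CB in
lemma cluster_sub {d : ℕ} (ω : V d → Bool) (S : Set (V d)) (x : V d) :
    cluster ω S x ⊆ cl (siteM d) ω S x := by
  rintro y ⟨-, h⟩
  rw [graph_eq] at h
  exact h

open Pool.Agent.Y990.CB in
lemma infinite_iff {d : ℕ} (ω : V d → Bool) (x : V d) :
    (cluster ω univ x).Infinite ↔ ω ∈ Perc (siteM d) x := by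
  constructor
  · intro h
    exact h.mono (cluster_sub ω univ x)
  · intro h
    have hx : ω x = true := by
      obtain ⟨y, hy, hyx⟩ := Set.Infinite.exists_notMem_finset h {x}
      have hyx' : y ≠ x := by simpa using hyx
      have hr : (G (siteM d) ω univ).Reachable x y := hy
      obtain ⟨q⟩ := hr
      cases q with
      | nil => exact absurd rfl hyx'
      | cons hadj _ => exact (nd_mem.1 hadj.2.2.2).1
    refine Set.Infinite.mono ?_ h
    intro y hy
    refine ⟨⟨hx, mem_univ x⟩, ?_⟩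
    rw [graph_eq]
    exact hy

open Pool.Agent.Y990.CB in
lemma P_eq (d : ℕ) (p : unitInterval) : P d p = mu (siteM d) p := rfl

open Pool.Agent.Y990.CB in
lemma theta_eq (d : ℕ) (p : unitInterval) : theta d p = th (siteM d) p := by
  unfold theta th
  rw [P_eq]
  congr 1
  ext ω
  exact infinite_iff ω 0

open Pool.Agent.Y990.CB in
lemma pc_eq (d : ℕ) : pc d = Pool.Agent.Y990.CB.pc (siteM d) := by
  apply Subtype.ext
  show sSup {t : ℝ | ∃ q : unitInterval, (q : ℝ) = t ∧ theta d q = 0} =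
    sSup {x : ℝ | ∃ q : unitInterval, (q : ℝ) = x ∧ th (siteM d) q = 0}
  simp only [theta_eq]

open Pool.Agent.Y990.CB in
lemma box_eq {d : ℕ} (z : V d) (N : ℕ) : box z N = Bo z N := rfl

open Pool.Agent.Y990.CB in
lemma le_nm {d : ℕ} (v : V d) (i : Fin d) : (v i).natAbs ≤ nm v :=
  Finset.le_sup (f := fun i => (v i).natAbs) (Finset.mem_univ i)

open Pool.Agent.Y990.CB in
lemma nm_le {d N : ℕ} {v : V d} (h : v ∈ box 0 N) : nm v ≤ N := by
  refine Finset.sup_le fun i _ => ?_
  have h1 := h i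
  simp only [Pi.zero_apply, sub_zero, abs_le] at h1
  show (v i).natAbs ≤ N
  omega

open Pool.Agent.Y990.CB in
lemma le_mul_nm {d N K : ℕ} {v w : V d} (h : ∃ a, (N : ℤ) ≤ K * |v a - w a|) :
    N ≤ K * nm (v - w) := by
  obtain ⟨a, ha⟩ := h
  have h1 : N ≤ K * (v a - w a).natAbs := by
    have : (N : ℤ) ≤ ((K * (v a - w a).natAbs : ℕ) : ℤ) := by
      push_cast
      exact ha
    exact_mod_cast this
  exact h1.trans (Nat.mul_le_mul_left K (le_nm (v - w) a))

open Pool.Agent.Y990.CB Pool.Agent.W783.PC in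
/-- Monotonicity in the parameter. -/
lemma par_mono {d : ℕ} {p q : unitInterval} (h : p ≤ q) {A : Set ((siteM d).ι → Bool)}
    (hA : Inc A) (hm : MeasurableSet A) :
    (mu (siteM d) q).real Aᶜ ≤ (mu (siteM d) p).real Aᶜ := by
  have h1 : mu (siteM d) p A ≤ mu (siteM d) q A :=
    Pool.Agent.W400.PC.s_mono (siteM d).ι (fun _ => p) (fun _ => q) _ (fun _ => h) hA hm
  have h2 : (mu (siteM d) p).real A ≤ (mu (siteM d) q).real A :=
    ENNReal.toReal_mono (measure_ne_top _ _) h1
  rw [probReal_compl_eq_one_sub hm, probReal_compl_eq_one_sub hm]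
  linarith

open Pool.Agent.Y990.CB Pool.Agent.W783.PC in
/-- The event that two of the boxes are connected. -/
lemma Dc_compl {d L k K : ℕ} (x : Fin K → V d) :
    (Dc (siteM d) L k x)ᶜ = ⋃ i, ⋃ j, ⋃ (_ : i ≠ j), Lk (siteM d) (Bo 0 L) (Bo (x i) k) (Bo (x j) k) := by
  ext ω
  simp only [Dc, mem_compl_iff, mem_ofPred_eq, not_forall, not_not, mem_iUnion]

open Pool.Agent.Y990.CB Pool.Agent.W783.PC in
lemma Dc_par {d L k K : ℕ} (x : Fin K → V d) {p q : unitInterval} (h : p ≤ q) :
    (mu (siteM d) q).real (Dc (siteM d) L k x) ≤ (mu (siteM d) p).real (Dc (siteM d) L k x) := by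
  have hm : MeasurableSet (Dc (siteM d) L k x)ᶜ := by
    rw [Dc_compl]
    exact MeasurableSet.iUnion fun i => MeasurableSet.iUnion fun j => MeasurableSet.iUnion fun _ =>
      Lk_meas (siteM d) _ _ _
  have hi : Inc (Dc (siteM d) L k x)ᶜ := by
    rw [Dc_compl]
    intro ω ω' h1 h2
    simp only [mem_iUnion] at h2 ⊢
    obtain ⟨i, j, hij, h3⟩ := h2
    exact ⟨i, j, hij, Lk_inc (siteM d) _ _ _ ω ω' h1 h3⟩
  have := par_mono h hi hm
  rwa [compl_compl] at this

open Pool.Agent.Y990.CB Pool.Agent.W783.PC in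
lemma Nf_par {d ρ N k : ℕ} (a : ℝ) {p q : unitInterval} (h : p ≤ q) :
    (mu (siteM d) q).real (Nf' (siteM d) ρ N k a 0) ≤
      (mu (siteM d) p).real (Nf' (siteM d) ρ N k a 0) := by
  have hm : MeasurableSet (Nf' (siteM d) ρ N k a 0)ᶜ := (Nf'_meas (siteM d) ρ N k a 0).compl
  have hi : Inc (Nf' (siteM d) ρ N k a 0)ᶜ := by
    intro ω ω' h1 h2
    simp only [Nf', mem_compl_iff, mem_ofPred_eq, not_forall, not_le] at h2 ⊢
    obtain ⟨x, hx, h3⟩ := h2
    refine ⟨x, hx, h3.trans_le ?_⟩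
    have hsub : Fs (siteM d) ω ρ N k 0 x ⊆ Fs (siteM d) ω' ρ N k 0 x := by
      rintro y ⟨hy, u, hu, huc⟩
      exact ⟨hy, u, hu, Cn_inc (siteM d) (Bo 0 ρ) x u ω ω' h1 huc⟩
    exact_mod_cast Set.ncard_le_ncard hsub (Fs_fin (siteM d) ω' ρ N k 0 x)
  have := par_mono h hi hm
  rwa [compl_compl] at this

open Pool.Agent.Y990.CB in
lemma joined_sub {d : ℕ} {ω : V d → Bool} {S A B : Set (V d)} (h : Joined ω S A B) :
    ω ∈ Lk (siteM d) S A B := by
  obtain ⟨x, hx, y, hy, hyB⟩ := h
  exact ⟨x, hx, y, hyB, cluster_sub ω S x hy⟩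

open Pool.Agent.Y990.CB in
/-- The vertices of the box near one cluster. -/
lemma near_le {d : ℕ} {ω : V d → Bool} {L N k : ℕ} {a : ℝ} (ha : 0 ≤ a)
    (h : ω ∈ Nf' (siteM d) L N k a 0) (x : V d) :
    ({y | y ∈ box 0 N ∧ (box y k ∩ cluster ω (box 0 L) x).Nonempty}.ncard : ℝ) ≤ a := by
  rcases Set.eq_empty_or_nonempty
    {y | y ∈ box (0 : V d) N ∧ (box y k ∩ cluster ω (box 0 L) x).Nonempty} with he | ⟨y0, hy0, u, hu, huc⟩
  · rw [he, Set.ncard_empty]
    simpa using ha
  · have hu' : u ∈ Bo (0 : V d) (N + k) := by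
      intro i
      have h1 := hu i
      have h2 := hy0 i
      simp only [Pi.zero_apply, sub_zero] at h2 ⊢
      push_cast
      rw [abs_le] at h1 h2 ⊢
      omega
    refine le_trans ?_ (h u hu')
    have hfin := Fs_fin (siteM d) ω L N k 0 u
    have hsub : {y | y ∈ box (0 : V d) N ∧ (box y k ∩ cluster ω (box 0 L) x).Nonempty} ⊆
        Fs (siteM d) ω L N k 0 u := by
      rintro y ⟨hy, w, hw, hwc⟩
      refine ⟨hy, w, hw, ?_⟩
      have h1 : (G (siteM d) ω (Bo 0 L)).Reachable x u := cluster_sub ω _ x huc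
      have h2 : (G (siteM d) ω (Bo 0 L)).Reachable x w := cluster_sub ω _ x hwc
      exact h1.symm.trans h2
    exact_mod_cast Set.ncard_le_ncard hsub hfin

/-- **Disconnection at polynomial scales at and below the critical point.**  For every `d ≥ 2` there
is `C ≥ 1` such that for all `p ≤ p_c`:

* if `C (k + 1) ^ (2 d² + 3 d) K² R ≤ √N` (`R ≥ 1`) and `x_1, …, x_K` are vertices of the box of
  radius `N` with mutual sup distances at least `N / K`, then with `P_p`-probability at least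
  `(2 · 10^14 K R) ^ (-K (K - 1) / 2)` no two of the boxes of radius `k` around `x_1, …, x_K` are
  connected inside the box of radius `R N`;
* if `C (k + 1) ^ (2 d² + 3 d) R ≤ ε² √N` (`R ≥ 1`, `0 < ε ≤ 1`), then with `P_p`-probability at
  least `ε / (10^14 R)` every open cluster of the box of radius `R N` comes within sup distance `k`
  of at most `(1 / 2 + ε) (2 N + 1) ^ d` vertices of the box of radius `N`. -/
theorem result (d : ℕ) (hd : 2 ≤ d) : ∃ C : ℝ, 1 ≤ C ∧ ∀ p : unitInterval, p ≤ pc d →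
    (∀ (K R k N : ℕ) (x : Fin K → V d), 1 ≤ R →
      C * ((k : ℝ) + 1) ^ (2 * d ^ 2 + 3 * d) * K ^ 2 * R ≤ √(N : ℝ) →
      (∀ i, x i ∈ box 0 N) → (∀ i j, i ≠ j → ∃ a, (N : ℤ) ≤ K * |x i a - x j a|) →
      (1 / (2 * 10 ^ 14 * (K : ℝ) * R)) ^ (K * (K - 1) / 2) ≤
        (P d p).real {ω | ∀ i j, i ≠ j → ¬ Joined ω (box 0 (R * N)) (box (x i) k) (box (x j) k)}) ∧
    (∀ (k N R : ℕ) (ε : ℝ), 1 ≤ R → 0 < ε → ε ≤ 1 →
      C * ((k : ℝ) + 1) ^ (2 * d ^ 2 + 3 * d) * R ≤ ε ^ 2 * √(N : ℝ) →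
      ε / (10 ^ 14 * R) ≤ (P d p).real {ω | ∀ x,
        ({y | y ∈ box 0 N ∧ (box y k ∩ cluster ω (box 0 (R * N)) x).Nonempty}.ncard : ℝ) ≤
          (1 / 2 + ε) * (2 * N + 1) ^ d}) := by
  have hN : Pool.Agent.Y990.CB.Nd (Pool.Agent.Y990.CB.siteM d) := Pool.Agent.Y990.CB.nd_site
  have hQ : Pool.Agent.Y990.CB.Qm (Pool.Agent.Y990.CB.siteM d) := Pool.Agent.Y448.CB2.qm_site d
  obtain ⟨C1, hC1, h1⟩ := Pool.Agent.Y990.CB.polyK hd _ hN hQ
  obtain ⟨C2, hC2, h2⟩ := Pool.Agent.Y990.CB.fat hd _ hN hQ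
  refine ⟨max C1 C2, le_max_of_le_left hC1, fun p hp => ⟨?_, ?_⟩⟩
  · intro K R k N x hR hC hx hxx
    have hC' : C1 * ((k : ℝ) + 1) ^ (2 * d ^ 2 + 3 * d) * K ^ 2 * R ≤ √(N : ℝ) := by
      refine le_trans ?_ hC
      have := le_max_left C1 C2
      gcongr
    have g := h1 K R k N x hR hC' (fun i => nm_le (hx i)) (fun i j hij => le_mul_nm (hxx i j hij))
    rw [Nat.choose_two_right] at g
    refine g.trans ?_
    rw [← pc_eq]
    refine (Dc_par x hp).trans ?_
    rw [P_eq]
    refine measureReal_mono ?_ (measure_ne_top _ _)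
    intro ω hω i j hij hJ
    exact hω i j hij (joined_sub hJ)
  · intro k N R ε hR hε hε1 hC
    have hC' : C2 * ((k : ℝ) + 1) ^ (2 * d ^ 2 + 3 * d) * R ≤ ε ^ 2 * √(N : ℝ) := by
      refine le_trans ?_ hC
      have := le_max_right C1 C2
      gcongr
    have g := h2 k N R ε hR hε hε1 hC'
    refine g.trans ?_
    rw [← pc_eq]
    refine (Nf_par _ hp).trans ?_
    rw [P_eq]
    refine measureReal_mono ?_ (measure_ne_top _ _)
    intro ω hω x
    have := near_le (by positivity) hω x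
    push_cast at this
    exact this

end

end Pool.Agent.Results.MP_e13933_pr.PolynomialDisconnection
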