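import Pool.Agent.W783.Perc.Fin

set_option autoImplicit false

open MeasureTheory Set Filter
open scoped Topology NNReal

/-!
Site percolation on `Z^(n+1)`, `n + 1 ≥ 2`, perturbed by arbitrarily weak long bonds on a sparse set of
parallel lines: the phase transition is continuous, and the critical point converges to the critical
point of site percolation on `Z^(n+1)` when the intensity of the long bonds tends to zero.  As a
consequence there are models with bonds of bounded length, as close to site percolation on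
`Z^(n+1)` as one likes, whose percolation probability at the critical point is as small as one likes.

The proof is in the modules `Pool.Agent.W783.Perc` (renormalization along the special lines).
-/

namespace Pool.Agent.Results.MP_e13933_pr.WeakLongRangeBonds

noncomputable section

/-- The vertices of `Z^(n+1)`, written as pairs `(x, x')` with `x ∈ Z` and `x' ∈ Z^n`. -/
abbrev V (n : ℕ) : Type := ℤ × (Fin n → ℤ)

/-- Two vertices at Euclidean distance one. -/
def Near {n : ℕ} (x y : V n) : Prop := |x.1 - y.1| + ∑ i, |x.2 i - y.2 i| = 1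

/-- Two vertices at distance at least two on the same special line; the special lines are the lines
parallel to the first axis all of whose other coordinates are divisible by `m`. -/
def Far {n : ℕ} (m : ℕ) (x y : V n) : Prop :=
  x.2 = y.2 ∧ (∀ i, (m : ℤ) ∣ x.2 i) ∧ 2 ≤ (x.1 - y.1).natAbs

/-- The long bonds: the unordered pairs of vertices at distance at least two on a special line. -/
abbrev Bond (n m : ℕ) : Type := {e : Sym2 (V n) // ∃ x y, e = s(x, y) ∧ Far m x y}

/-- The length of a bond of the first direction. -/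
def len {n : ℕ} (e : Sym2 (V n)) : ℕ :=
  Sym2.lift ⟨fun x y : V n => (x.1 - y.1).natAbs, fun x y => by
    show (x.1 - y.1).natAbs = (y.1 - x.1).natAbs
    omega⟩ e

/-- The Bernoulli distribution with parameter `q`; `true` stands for open. -/
def bern (q : unitInterval) : Measure Bool :=
  ENNReal.ofReal (q : ℝ) • Measure.dirac true + ENNReal.ofReal (1 - (q : ℝ)) • Measure.dirac false

/-- The probability `1 - exp (-β k^(-s))` that a long bond of length `k` is open. -/
def longProb (β : ℝ≥0) (s : ℝ) (k : ℕ) : unitInterval :=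
  ⟨1 - Real.exp (-((β : ℝ) * (k : ℝ) ^ (-s))), by
    have h : 0 ≤ (β : ℝ) * (k : ℝ) ^ (-s) := mul_nonneg β.2 (Real.rpow_nonneg (Nat.cast_nonneg k) _)
    constructor
    · rw [sub_nonneg]
      exact Real.exp_le_one_iff.mpr (by linarith)
    · linarith [Real.exp_pos (-((β : ℝ) * (k : ℝ) ^ (-s)))]⟩

/-- The law of the model: every vertex is open with probability `a` and every long bond of length `k`
is open with probability `1 - exp (-β k^(-s))`, all independently. -/
def P (n m : ℕ) (s : ℝ) (β : ℝ≥0) (a : unitInterval) : Measure (V n ⊕ Bond n m → Bool) :=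
  Measure.infinitePi fun c : V n ⊕ Bond n m => bern (Sum.elim (fun _ => a) (fun e => longProb β s (len e.1)) c)

/-- The open graph: two open vertices are joined if they are at distance one, or if they are the
endpoints of an open long bond of length at most `K`. -/
def openGraph {n m : ℕ} (K : ℕ∞) (ω : V n ⊕ Bond n m → Bool) : SimpleGraph (V n) where
  Adj x y := (ω (Sum.inl x) = true ∧ ω (Sum.inl y) = true) ∧
    (Near x y ∨ ∃ e : Bond n m, e.1 = s(x, y) ∧ (len e.1 : ℕ∞) ≤ K ∧ ω (Sum.inr e) = true)
  symm := ⟨fun x y h => ⟨⟨h.1.2, h.1.1⟩, by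
    rcases h.2 with h2 | ⟨e, h3, h4⟩
    · left
      simpa only [Near, abs_sub_comm] using h2
    · exact Or.inr ⟨e, by rw [h3, Sym2.eq_swap], h4⟩⟩⟩
  loopless := ⟨fun x h => by
    rcases h.2 with h2 | ⟨⟨e, y, z, h3, h4⟩, h5, -⟩
    · simp [Near] at h2
    · simp only at h5
      rw [h3, Sym2.eq_iff] at h5
      rcases h5 with ⟨rfl, rfl⟩ | ⟨rfl, rfl⟩ <;> simp [Far] at h4⟩

/-- The probability that the origin lies in an infinite open cluster, when only the long bonds of
length at most `K` are used (all of them for `K = ⊤`). -/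
def theta (n m : ℕ) (s : ℝ) (β : ℝ≥0) (K : ℕ∞) (a : unitInterval) : ℝ :=
  (P n m s β a).real {ω | {y | (openGraph K ω).Reachable 0 y}.Infinite}

/-- The critical point of a function `f` on `[0, 1]`: the supremum of the parameters `q` with
`f q = 0`. -/
def crit (f : unitInterval → ℝ) : unitInterval :=
  ⟨sSup {x : ℝ | ∃ q : unitInterval, (q : ℝ) = x ∧ f q = 0}, by
    constructor
    · apply Real.sSup_nonneg
      rintro x ⟨q, rfl, _⟩
      exact q.2.1
    · apply Real.sSup_le
      · rintro x ⟨q, rfl, _⟩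
        exact q.2.2
      · exact zero_le_one⟩

/-- The critical point of the model with the long bonds of length at most `K`. -/
def pc (n m : ℕ) (s : ℝ) (β : ℝ≥0) (K : ℕ∞) : unitInterval := crit (theta n m s β K)

/-- The open graph of site percolation on `Z^(n+1)`: open vertices at distance one are joined. -/
def openGraphZ {n : ℕ} (ω : V n → Bool) : SimpleGraph (V n) where
  Adj x y := (ω x = true ∧ ω y = true) ∧ Near x y
  symm := ⟨fun x y h => ⟨⟨h.1.2, h.1.1⟩, by simpa only [Near, abs_sub_comm] using h.2⟩⟩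
  loopless := ⟨fun x h => by simp [Near] at h⟩

/-- The probability, in site percolation on `Z^(n+1)` with parameter `a`, that the origin lies in an
infinite open cluster. -/
def thetaZ (n : ℕ) (a : unitInterval) : ℝ :=
  (Measure.infinitePi fun _ : V n => bern a).real
    {ω | {y | (openGraphZ ω).Reachable 0 y}.Infinite}

/-- The critical point of site percolation on `Z^(n+1)`. -/
def pcZ (n : ℕ) : unitInterval := crit (thetaZ n)

/-! ### Comparison with the model of the modules -/

open Pool.Agent.W783.PC (pm Perc EdI Ed isNN isLg prob prob_nn prob_lg)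

lemma map_inj {ι κ : Type} (r : ι → unitInterval) (j : κ → ι) (hj : Function.Injective j) :
    (pm r).map (fun ω k => ω (j k)) = Measure.infinitePi fun k => bern (r (j k)) := by
  classical
  have : ∀ q : unitInterval, IsProbabilityMeasure (bern q) := fun q =>
    inferInstanceAs (IsProbabilityMeasure (Pool.Agent.W783.PC.bern q))
  have hm : Measurable (fun (ω : ι → Bool) (k : κ) => ω (j k)) := by fun_prop
  refine Measure.eq_infinitePi _ ?_
  intro s t ht
  rw [Measure.map_apply hm (MeasurableSet.pi s.countable_toSet fun i _ => ht i)]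
  have h : (fun (ω : ι → Bool) (k : κ) => ω (j k)) ⁻¹' (Set.pi (s : Set κ) t) =
      Set.pi ((s.map ⟨j, hj⟩ : Finset ι) : Set ι)
        (fun i => if h : ∃ k, j k = i then t h.choose else univ) := by
    ext ω
    simp only [mem_preimage, Set.mem_pi, Finset.mem_coe, Finset.mem_map, Function.Embedding.coeFn_mk,
      forall_exists_index, and_imp]
    have key : ∀ k, (if h : ∃ k', j k' = j k then t h.choose else univ) = t k := by
      intro k
      have h : ∃ k', j k' = j k := ⟨k, rfl⟩
      rw [dif_pos h, hj h.choose_spec]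
    constructor
    · rintro h i k hk rfl
      rw [key]
      exact h k hk
    · intro h k hk
      have := h (j k) k hk rfl
      rwa [key] at this
  rw [h]
  unfold pm
  rw [Measure.infinitePi_pi]
  · rw [Finset.prod_map]
    refine Finset.prod_congr rfl fun k _ => ?_
    have h : ∃ k', j k' = j k := ⟨k, rfl⟩
    simp only [Function.Embedding.coeFn_mk]
    rw [dif_pos h, hj h.choose_spec]
    rfl
  · intro i _
    split_ifs with h
    · exact ht _
    · exact MeasurableSet.univ

lemma near_iff {n : ℕ} (x y : V n) : Near x y ↔ Pool.Agent.W783.PC.NN x y := Iff.rfl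

lemma isNN_iff {n : ℕ} (x y : V n) : isNN s(x, y) ↔ Near x y := by
  constructor
  · rintro ⟨x', y', h, h2⟩
    rw [Sym2.eq_iff] at h
    rcases h with ⟨rfl, rfl⟩ | ⟨rfl, rfl⟩
    · exact h2
    · simpa only [Near, Pool.Agent.W783.PC.NN, abs_sub_comm] using h2
  · exact fun h => ⟨x, y, rfl, h⟩

lemma not_nn_of_lg {n m : ℕ} {e : Sym2 (V n)} (h : isLg m e) : ¬ isNN e := by
  obtain ⟨x, y, rfl, h1⟩ := h
  rw [isNN_iff]
  intro h2
  obtain ⟨h3, -, h4⟩ := h1
  unfold Near at h2
  rw [h3] at h2
  simp only [sub_self, abs_zero, Finset.sum_const_zero, add_zero] at h2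
  rw [Int.abs_eq_natAbs] at h2
  omega

/-- all nearest-neighbour bonds are open -/
def AllNN (n : ℕ) : Set (Pool.Agent.W783.PC.Cfg n) := {ω | ∀ e : Sym2 (V n), isNN e → ω (Sum.inr e) = true}

lemma ae_nn {n : ℕ} (r : Pool.Agent.W783.PC.Ix n → unitInterval)
    (h : ∀ e, isNN e → r (Sum.inr e) = 1) : ∀ᵐ ω ∂(pm r), ω ∈ AllNN n := by
  have h1 : ∀ e : Sym2 (V n), ∀ᵐ ω ∂(pm r), isNN e → ω (Sum.inr e) = true := by
    intro e
    by_cases he : isNN e
    · have h2 : pm r {ω | ω (Sum.inr e) = false} = 0 := by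
        have h3 : {ω : Pool.Agent.W783.PC.Cfg n | ω (Sum.inr e) = false} =
            Set.pi (({Sum.inr e} : Finset (Pool.Agent.W783.PC.Ix n)) : Set _) (fun _ => {false}) := by
          ext ω
          simp
        rw [h3]
        unfold pm
        rw [Measure.infinitePi_pi _ (fun i _ => MeasurableSet.of_discrete), Finset.prod_singleton,
          h e he]
        simp [Pool.Agent.W783.PC.bern]
      have h4 : ∀ᵐ ω ∂(pm r), ¬ ω (Sum.inr e) = false := by
        rw [ae_iff]
        simpa using h2
      filter_upwards [h4] with ω hω _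
      simpa using hω
    · exact Filter.Eventually.of_forall fun ω h' => absurd h' he
  have h2 := ae_all_iff.2 h1
  exact h2

/-- the coordinates which are used -/
def jj (n m : ℕ) : V n ⊕ Bond n m → Pool.Agent.W783.PC.Ix n := Sum.map id (fun e => e.1)

lemma jj_inj (n m : ℕ) : Function.Injective (jj n m) :=
  Function.Injective.sumMap Function.injective_id Subtype.val_injective

lemma graph_eq {n m : ℕ} (K : ℕ∞) (E : Set (Sym2 (V n)))
    (hE : ∀ e, e ∈ E ↔ isNN e ∨ (isLg m e ∧ (len e : ℕ∞) ≤ K))
    (ω : Pool.Agent.W783.PC.Cfg n) (hω : ω ∈ AllNN n) :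
    openGraph K (fun c => ω (jj n m c)) = Pool.Agent.W783.PC.G E ω univ := by
  ext x y
  show (ω (Sum.inl x) = true ∧ ω (Sum.inl y) = true) ∧
    (Near x y ∨ ∃ e : Bond n m, e.1 = s(x, y) ∧ (len e.1 : ℕ∞) ≤ K ∧ ω (Sum.inr e.1) = true) ↔
    (x ≠ y ∧ x ∈ univ ∧ y ∈ univ ∧ s(x, y) ∈ E ∧ ω (Sum.inl x) = true ∧ ω (Sum.inl y) = true ∧
      ω (Sum.inr s(x, y)) = true)
  rw [hE, isNN_iff]
  constructor
  · rintro ⟨⟨h1, h2⟩, h3 | ⟨e, h3, h4, h5⟩⟩
    · refine ⟨?_, mem_univ _, mem_univ _, Or.inl h3, h1, h2, hω _ ((isNN_iff x y).2 h3)⟩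
      rintro rfl
      simp [Near] at h3
    · have h6 : isLg m s(x, y) := h3 ▸ e.2
      refine ⟨?_, mem_univ _, mem_univ _, Or.inr ⟨h6, h3 ▸ h4⟩, h1, h2, h3 ▸ h5⟩
      rintro rfl
      obtain ⟨x', y', h7, h8⟩ := h6
      rw [Sym2.eq_iff] at h7
      rcases h7 with ⟨rfl, rfl⟩ | ⟨rfl, rfl⟩ <;> simp [Pool.Agent.W783.PC.Lg] at h8
  · rintro ⟨-, -, -, h3 | ⟨h3, h4⟩, h1, h2, h5⟩
    · exact ⟨⟨h1, h2⟩, Or.inl h3⟩
    · exact ⟨⟨h1, h2⟩, Or.inr ⟨⟨s(x, y), h3⟩, rfl, h4, h5⟩⟩

lemma theta_eq_gen {n m : ℕ} (s : ℝ) (β : ℝ≥0) (K : ℕ∞) (a : unitInterval) (E : Set (Sym2 (V n)))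
    (hE : ∀ e, e ∈ E ↔ isNN e ∨ (isLg m e ∧ (len e : ℕ∞) ≤ K)) :
    theta n m s β K a = (pm (prob (n := n) a 1 β s m)).real (Perc E 0) := by
  classical
  set r := prob (n := n) a 1 β s m with hr
  have h1 : P n m s β a = (pm r).map (fun ω c => ω (jj n m c)) := by
    rw [map_inj r (jj n m) (jj_inj n m)]
    unfold P
    congr 1
    ext c
    rcases c with v | e
    · rfl
    · have h2 : r (jj n m (Sum.inr e)) = Pool.Agent.W783.PC.lrp β s (Pool.Agent.W783.PC.len e.1) :=
        prob_lg a 1 β s m (not_nn_of_lg e.2) e.2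
      rw [h2]
      rfl
  have hm : Measurable (fun (ω : Pool.Agent.W783.PC.Cfg n) (c : V n ⊕ Bond n m) => ω (jj n m c)) := by
    fun_prop
  have hae := ae_nn r (fun e he => prob_nn a 1 β s m he)
  have hnull : MeasurableSet (Perc E (0 : V n)) := Pool.Agent.W975.PC.s_perc_meas n E 0
  -- the event is measurable
  have hmeas : MeasurableSet {ω : V n ⊕ Bond n m → Bool |
      {y | (openGraph K ω).Reachable 0 y}.Infinite} := by
    -- extend a configuration by open nearest-neighbour bonds
    let ex : (V n ⊕ Bond n m → Bool) → Pool.Agent.W783.PC.Cfg n := fun ω c =>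
      Sum.elim (fun v => ω (Sum.inl v))
        (fun e => if isNN e then true else if h : isLg m e then ω (Sum.inr ⟨e, h⟩) else false) c
    have hex : Measurable ex := by
      rw [measurable_pi_iff]
      rintro (v | e)
      · exact measurable_pi_apply _
      · by_cases h1 : isNN e
        · simp only [ex, Sum.elim_inr, if_pos h1]
          exact measurable_const
        · by_cases h2 : isLg m e
          · simp only [ex, Sum.elim_inr, if_neg h1, dif_pos h2]
            exact measurable_pi_apply _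
          · simp only [ex, Sum.elim_inr, if_neg h1, dif_neg h2]
            exact measurable_const
    have h3 : {ω : V n ⊕ Bond n m → Bool | {y | (openGraph K ω).Reachable 0 y}.Infinite} =
        ex ⁻¹' (Perc E 0) := by
      ext ω
      have h4 : (fun c => ex ω (jj n m c)) = ω := by
        funext c
        rcases c with v | e
        · rfl
        · show (if isNN e.1 then true else if h : isLg m e.1 then ω (Sum.inr ⟨e.1, h⟩) else false) = _
          rw [if_neg (not_nn_of_lg e.2)]
          exact dif_pos (show isLg m e.1 from e.2)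
      have h5 : ex ω ∈ AllNN n := by
        intro e he
        show (if isNN e then true else _) = true
        rw [if_pos he]
      have h6 := graph_eq K E hE (ex ω) h5
      rw [h4] at h6
      show {y | (openGraph K ω).Reachable 0 y}.Infinite ↔
        {y | (Pool.Agent.W783.PC.G E (ex ω) univ).Reachable 0 y}.Infinite
      rw [h6]
    rw [h3]
    exact hex hnull
  unfold theta
  rw [h1, Measure.real, Measure.map_apply hm hmeas, Measure.real]
  congr 1
  refine measure_congr ?_
  filter_upwards [hae] with ω hω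
  show ({y | (openGraph K (fun c => ω (jj n m c))).Reachable 0 y}.Infinite) =
    ({y | (Pool.Agent.W783.PC.G E ω univ).Reachable 0 y}.Infinite)
  rw [graph_eq K E hE ω hω]

lemma theta_top {n m : ℕ} (s : ℝ) (β : ℝ≥0) (a : unitInterval) :
    theta n m s β ⊤ a = Pool.Agent.W783.PC.theta n a 1 β s m := by
  refine theta_eq_gen s β ⊤ a _ (fun e => ?_)
  simp [EdI]

lemma theta_nat {n m : ℕ} (s : ℝ) (β : ℝ≥0) (K : ℕ) (a : unitInterval) :
    theta n m s β K a = Pool.Agent.W783.PC.thetaK n a 1 β s m K := by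
  refine theta_eq_gen s β K a _ (fun e => ?_)
  simp only [Ed, Set.mem_ofPred_eq, Nat.cast_le]
  rfl

lemma thetaZ_eq {n : ℕ} (a : unitInterval) : thetaZ n a = Pool.Agent.W783.PC.thetaZ n a 1 := by
  classical
  set r : Pool.Agent.W783.PC.Ix n → unitInterval :=
    fun c => match c with | Sum.inl _ => a | Sum.inr _ => 1 with hr
  have h1 : (Measure.infinitePi fun _ : V n => bern a) = (pm r).map (fun ω v => ω (Sum.inl v)) :=
    (map_inj r Sum.inl Sum.inl_injective).symm
  have hm : Measurable (fun (ω : Pool.Agent.W783.PC.Cfg n) (v : V n) => ω (Sum.inl v)) := by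
    fun_prop
  have hae := ae_nn r (fun e he => rfl)
  have hgraph : ∀ ω ∈ AllNN n, openGraphZ (fun v => ω (Sum.inl v)) =
      Pool.Agent.W783.PC.G {e | isNN e} ω univ := by
    intro ω hω
    ext x y
    show (ω (Sum.inl x) = true ∧ ω (Sum.inl y) = true) ∧ Near x y ↔
      (x ≠ y ∧ x ∈ univ ∧ y ∈ univ ∧ isNN s(x, y) ∧ ω (Sum.inl x) = true ∧
        ω (Sum.inl y) = true ∧ ω (Sum.inr s(x, y)) = true)
    rw [isNN_iff]
    constructor
    · rintro ⟨⟨h2, h3⟩, h4⟩
      refine ⟨?_, mem_univ _, mem_univ _, h4, h2, h3, hω _ ((isNN_iff x y).2 h4)⟩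
      rintro rfl
      simp [Near] at h4
    · rintro ⟨-, -, -, h4, h2, h3, -⟩
      exact ⟨⟨h2, h3⟩, h4⟩
  have hmeas : MeasurableSet {ω : V n → Bool | {y | (openGraphZ ω).Reachable 0 y}.Infinite} := by
    let ex : (V n → Bool) → Pool.Agent.W783.PC.Cfg n := fun ω c => Sum.elim ω (fun _ => true) c
    have hex : Measurable ex := by
      rw [measurable_pi_iff]
      rintro (v | e)
      · exact measurable_pi_apply _
      · exact measurable_const
    have h3 : {ω : V n → Bool | {y | (openGraphZ ω).Reachable 0 y}.Infinite} =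
        ex ⁻¹' (Perc {e | isNN e} 0) := by
      ext ω
      have h6 := hgraph (ex ω) (fun e _ => rfl)
      show {y | (openGraphZ ω).Reachable 0 y}.Infinite ↔
        {y | (Pool.Agent.W783.PC.G {e | isNN e} (ex ω) univ).Reachable 0 y}.Infinite
      rw [← h6]
      rfl
    rw [h3]
    exact hex (Pool.Agent.W975.PC.s_perc_meas n _ 0)
  unfold thetaZ Pool.Agent.W783.PC.thetaZ
  rw [h1, Measure.real, Measure.map_apply hm hmeas, Measure.real]
  congr 1
  refine measure_congr ?_
  filter_upwards [hae] with ω hω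
  show ({y | (openGraphZ (fun v => ω (Sum.inl v))).Reachable 0 y}.Infinite) =
    ({y | (Pool.Agent.W783.PC.G {e | isNN e} ω univ).Reachable 0 y}.Infinite)
  rw [hgraph ω hω]

lemma pc_top {n m : ℕ} (s : ℝ) (β : ℝ≥0) : pc n m s β ⊤ = Pool.Agent.W783.PC.acS n m s β := by
  unfold pc Pool.Agent.W783.PC.acS
  have : theta n m s β ⊤ = fun a => Pool.Agent.W783.PC.theta n a 1 β s m := by
    funext a
    exact theta_top s β a
  rw [this]
  rfl

lemma pc_nat {n m : ℕ} (s : ℝ) (β : ℝ≥0) (K : ℕ) :
    pc n m s β K = Pool.Agent.W783.PC.acSK n m s β K := by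
  unfold pc Pool.Agent.W783.PC.acSK
  have : theta n m s β K = fun a => Pool.Agent.W783.PC.thetaK n a 1 β s m K := by
    funext a
    exact theta_nat s β K a
  rw [this]
  rfl

lemma pcZ_eq (n : ℕ) : pcZ n = Pool.Agent.W783.PC.acZ n := by
  unfold pcZ Pool.Agent.W783.PC.acZ
  have : thetaZ n = fun a => Pool.Agent.W783.PC.thetaZ n a 1 := by
    funext a
    exact thetaZ_eq a
  rw [this]
  rfl

/-- For `n + 1 ≥ 2`, `m ≥ 1` and `1 < s < 2`: (1) for every intensity `β > 0` the critical point is in
`(0, 1)` and there is no infinite cluster at the critical point; (2) the critical point tends to the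
critical point of site percolation on `Z^(n+1)` as `β → 0`; (3) for every `ε > 0`, all small `β > 0`
and all large finite ranges `K`, the critical point of the model with the long bonds of length at
most `K` is within `ε` of the critical point of site percolation on `Z^(n+1)` and the percolation
probability at the critical point is at most `ε`. -/
theorem result (n m : ℕ) (hn : 1 ≤ n) (hm : 1 ≤ m) (s : ℝ) (hs : 1 < s) (hs2 : s < 2) :
    (∀ β : ℝ≥0, 0 < β → 0 < pc n m s β ⊤ ∧ pc n m s β ⊤ < 1 ∧
      theta n m s β ⊤ (pc n m s β ⊤) = 0) ∧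
    Tendsto (fun β : ℝ≥0 => (pc n m s β ⊤ : ℝ)) (𝓝 0) (𝓝 (pcZ n : ℝ)) ∧
    ∀ ε : ℝ, 0 < ε → ∃ β₀ : ℝ≥0, 0 < β₀ ∧ ∀ β : ℝ≥0, 0 < β → β ≤ β₀ → ∃ K₀ : ℕ, ∀ K : ℕ, K₀ ≤ K →
      |(pc n m s β K : ℝ) - pcZ n| ≤ ε ∧ theta n m s β K (pc n m s β K) ≤ ε := by
  obtain ⟨h1, h2⟩ := Pool.Agent.W783.PC.site_main (n := n) hn hm hs hs2
  refine ⟨fun β hβ => ?_, ?_, fun ε hε => ?_⟩
  · rw [theta_top, pc_top]
    exact h1 β hβ
  · simp only [pc_top, pcZ_eq]
    exact h2
  · obtain ⟨β₀, h3, h4⟩ := Pool.Agent.W783.PC.site_finite (n := n) hn hm hs hs2 hε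
    refine ⟨β₀, h3, fun β hβ hβ2 => ?_⟩
    obtain ⟨K₀, h5⟩ := h4 β hβ hβ2
    refine ⟨K₀, fun K hK => ?_⟩
    rw [theta_nat, pc_nat, pcZ_eq]
    exact h5 K hK

end

end Pool.Agent.Results.MP_e13933_pr.WeakLongRangeBonds
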